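import Mathlib
import Pool.Agent.Results.MP_0daf67_co.DefectStability

/-!
# Consecutive cycles and the spectral radius: stability with the exact defect of a clique

Let `k ≥ 2` and let `G` be a graph with `m ≥ (10^60 k^60 2^(4k))^2 + k^2 + k` edges, without isolated
vertices and with spectral radius `λ`. If `λ ≥ (k - 1 + √(4m - k^2 + 1)) / 2`, then `G` contains the
cycles of all lengths `3, …, 2k + 2`, or `G` is the join of a clique on `k` vertices and an
independent set. More generally, if `z ≤ k^2 / 4` is a natural number and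
`λ^2 - (k - 1) λ ≥ m - k (k - 1) / 2 - z / k`, then `G` contains all these cycles or `G` has a clique
with `k` vertices of defect at most `z`; such a clique always gives the inequality. In the
non-divisible case there is an explicit gap below the extremal graph.
-/

set_option autoImplicit false

namespace Pool.Agent.Results.MP_d10d5e_co.CycleDefectStability

open Finset Pool.Agent.Helper951.Defs Pool.Agent.Helper951.Spec Pool.Agent.Helper951.FanA
open Pool.Agent.Y804.SF

/-- The fan `K_1 ∨ P_n` contains the cycles of lengths `3, …, n + 1`. -/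
theorem cycle_fan (t n : ℕ) (ht : 3 ≤ t) (h : t ≤ n + 1) :
    (SimpleGraph.cycleGraph t).IsContained (fan n) := by
  obtain ⟨r, rfl⟩ : ∃ r, t = r + 1 + 2 := ⟨t - 3, by omega⟩
  let f : Fin (r + 1 + 2) → Fin 1 ⊕ Fin n := fun i =>
    if hi : i.val = 0 then Sum.inl 0 else Sum.inr ⟨i.val - 1, by omega⟩
  have hstep : ∀ i j : Fin (r + 1 + 2), j = i + 1 → (fan n).Adj (f i) (f j) := by
    intro i j hij
    have hv : j.val = if i.val = r + 2 then 0 else i.val + 1 := by
      subst hij
      rw [Fin.val_add_one]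
      have : (i = Fin.last (r + 1 + 1)) ↔ i.val = r + 2 := by
        rw [Fin.ext_iff, Fin.val_last]
      simp only [this]
    by_cases h0 : i.val = 0
    · have hj : j.val ≠ 0 := by
        rw [hv, h0, if_neg (by omega)]
        omega
      have e1 : f i = Sum.inl 0 := dif_pos h0
      have e2 : f j = Sum.inr ⟨j.val - 1, by omega⟩ := dif_neg hj
      rw [e1, e2]
      exact trivial
    · have e1 : f i = Sum.inr ⟨i.val - 1, by omega⟩ := dif_neg h0
      by_cases hl : i.val = r + 2
      · have hj : j.val = 0 := by rw [hv, if_pos hl]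
        have e2 : f j = Sum.inl 0 := dif_pos hj
        rw [e1, e2]
        exact trivial
      · have hj : j.val = i.val + 1 := by rw [hv, if_neg hl]
        have e2 : f j = Sum.inr ⟨j.val - 1, by omega⟩ := dif_neg (by omega)
        rw [e1, e2]
        show (SimpleGraph.pathGraph n).Adj _ _
        rw [SimpleGraph.pathGraph_adj]
        left
        show i.val - 1 + 1 = j.val - 1
        omega
  have hf : ∀ i j, (SimpleGraph.cycleGraph (r + 1 + 2)).Adj i j → (fan n).Adj (f i) (f j) := by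
    intro i j hij
    rw [SimpleGraph.cycleGraph_adj] at hij
    rcases hij with h' | h'
    · exact (hstep j i (by rw [← h']; abel)).symm
    · exact hstep i j (by rw [← h']; abel)
  have hinj : Function.Injective f := by
    intro i j hij
    by_cases h0 : i.val = 0 <;> by_cases h1 : j.val = 0
    · exact Fin.ext (by omega)
    · have e1 : f i = Sum.inl 0 := dif_pos h0
      have e2 : f j = Sum.inr ⟨j.val - 1, by omega⟩ := dif_neg h1
      rw [e1, e2] at hij
      exact absurd hij (by simp)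
    · have e1 : f i = Sum.inr ⟨i.val - 1, by omega⟩ := dif_neg h0
      have e2 : f j = Sum.inl 0 := dif_pos h1
      rw [e1, e2] at hij
      exact absurd hij (by simp)
    · have e1 : f i = Sum.inr ⟨i.val - 1, by omega⟩ := dif_neg h0
      have e2 : f j = Sum.inr ⟨j.val - 1, by omega⟩ := dif_neg h1
      rw [e1, e2] at hij
      have h3 := Sum.inr.inj hij
      rw [Fin.mk.injEq] at h3
      exact Fin.ext (by omega)
  exact ⟨⟨⟨f, fun {i j} h => hf i j h⟩, hinj⟩⟩

/-- A clique of defect zero. -/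
theorem iso_of_zero {V : Type} [Fintype V] (G : SimpleGraph V) (k : ℕ) (hk : 2 ≤ k)
    (hiso : ∀ v, ∃ w, G.Adj v w)
    (L : Finset V) (hL : L.card = k) (hcl : ∀ a ∈ L, ∀ b ∈ L, a ≠ b → G.Adj a b)
    (hd : defect G k L ≤ 0) :
    ∃ s : ℕ, Nonempty (G ≃g splitGraph k s) := by
  classical
  have hkR : (2 : ℝ) ≤ k := by exact_mod_cast hk
  have hnn : ∀ r ∈ Lᶜ, 0 ≤ (((L.filter (fun w => G.Adj r w)).card : ℝ) *
      (k - ((L.filter (fun w => G.Adj r w)).card : ℝ)) +
      k * ((Lᶜ.filter (fun w => G.Adj r w)).card : ℝ) / 2) := by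
    intro r _
    have h1 : (L.filter (fun w => G.Adj r w)).card ≤ k := hL ▸ Finset.card_filter_le _ _
    have h2 : ((L.filter (fun w => G.Adj r w)).card : ℝ) ≤ k := by exact_mod_cast h1
    have h3 : 0 ≤ ((L.filter (fun w => G.Adj r w)).card : ℝ) := Nat.cast_nonneg _
    have h4 : 0 ≤ ((Lᶜ.filter (fun w => G.Adj r w)).card : ℝ) := Nat.cast_nonneg _
    have h5 := mul_nonneg h3 (sub_nonneg.2 h2)
    have h6 : 0 ≤ (k : ℝ) * ((Lᶜ.filter (fun w => G.Adj r w)).card : ℝ) / 2 := by positivity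
    linarith
  have hz : ∀ r ∈ Lᶜ, (((L.filter (fun w => G.Adj r w)).card : ℝ) *
      (k - ((L.filter (fun w => G.Adj r w)).card : ℝ)) +
      k * ((Lᶜ.filter (fun w => G.Adj r w)).card : ℝ) / 2) = 0 := by
    have h0 : ∑ r ∈ Lᶜ, (((L.filter (fun w => G.Adj r w)).card : ℝ) *
      (k - ((L.filter (fun w => G.Adj r w)).card : ℝ)) +
      k * ((Lᶜ.filter (fun w => G.Adj r w)).card : ℝ) / 2) = 0 := by
      apply le_antisymm _ (Finset.sum_nonneg hnn)
      have : defect G k L = ∑ r ∈ Lᶜ, (((L.filter (fun w => G.Adj r w)).card : ℝ) *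
        (k - ((L.filter (fun w => G.Adj r w)).card : ℝ)) +
        k * ((Lᶜ.filter (fun w => G.Adj r w)).card : ℝ) / 2) := by
        unfold defect
        congr!
      rw [← this]
      exact hd
    exact (Finset.sum_eq_zero_iff_of_nonneg hnn).1 h0
  have hout : ∀ r, r ∉ L → ∀ w, w ∉ L → ¬ G.Adj r w := by
    intro r hr w hw hrw
    have h1 := hz r (Finset.mem_compl.2 hr)
    have h2 : 0 < (Lᶜ.filter (fun w => G.Adj r w)).card :=
      Finset.card_pos.2 ⟨w, Finset.mem_filter.2 ⟨Finset.mem_compl.2 hw, hrw⟩⟩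
    have h3 : (0 : ℝ) < ((Lᶜ.filter (fun w => G.Adj r w)).card : ℝ) := by exact_mod_cast h2
    have h4 : (L.filter (fun w => G.Adj r w)).card ≤ k := hL ▸ Finset.card_filter_le _ _
    have h5 : ((L.filter (fun w => G.Adj r w)).card : ℝ) ≤ k := by exact_mod_cast h4
    have h6 : 0 ≤ ((L.filter (fun w => G.Adj r w)).card : ℝ) := Nat.cast_nonneg _
    have h7 := mul_nonneg h6 (sub_nonneg.2 h5)
    have h8 : 0 < (k : ℝ) * ((Lᶜ.filter (fun w => G.Adj r w)).card : ℝ) / 2 := by positivity
    linarith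
  have hin : ∀ r, r ∉ L → ∀ w ∈ L, G.Adj r w := by
    intro r hr
    obtain ⟨w0, hw0⟩ := hiso r
    have hw0L : w0 ∈ L := by
      by_contra hcon
      exact hout r hr w0 hcon hw0
    have h1 := hz r (Finset.mem_compl.2 hr)
    have h2 : (Lᶜ.filter (fun w => G.Adj r w)).card = 0 := by
      rw [Finset.card_eq_zero, Finset.eq_empty_iff_forall_notMem]
      intro w hw
      rw [Finset.mem_filter, Finset.mem_compl] at hw
      exact hout r hr w hw.1 hw.2
    have h3 : 0 < (L.filter (fun w => G.Adj r w)).card :=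
      Finset.card_pos.2 ⟨w0, Finset.mem_filter.2 ⟨hw0L, hw0⟩⟩
    have h3' : ((L.filter (fun w => G.Adj r w)).card : ℝ) ≠ 0 := by
      exact_mod_cast h3.ne'
    rw [h2, Nat.cast_zero, mul_zero, zero_div, add_zero] at h1
    have h4 := (mul_eq_zero.1 h1).resolve_left h3'
    have h5 : (L.filter (fun w => G.Adj r w)).card = L.card := by
      rw [hL]
      have : (k : ℝ) = ((L.filter (fun w => G.Adj r w)).card : ℝ) := by linarith
      exact_mod_cast this.symm
    have h6 := Finset.eq_of_subset_of_card_le (Finset.filter_subset (fun w => G.Adj r w) L)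
      h5.ge
    intro w hw
    rw [← h6] at hw
    exact (Finset.mem_filter.1 hw).2
  obtain ⟨e1⟩ : Nonempty (Fin k ≃ {x // x ∈ L}) := by
    rw [← Fintype.card_eq]
    simp [hL]
  obtain ⟨s, hs⟩ : ∃ s, s = Fintype.card {x // x ∉ L} := ⟨_, rfl⟩
  obtain ⟨e2⟩ : Nonempty (Fin s ≃ {x // x ∉ L}) := by
    rw [← Fintype.card_eq, Fintype.card_fin, hs]
  refine ⟨s, ⟨RelIso.symm ⟨(Equiv.sumCongr e1 e2).trans (Equiv.sumCompl (fun x => x ∈ L)), ?_⟩⟩⟩
  rintro (a | a) (b | b)
  · constructor
    · intro h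
      show (⊤ : SimpleGraph (Fin k)).Adj a b
      rw [SimpleGraph.top_adj]
      rintro rfl
      exact h.ne rfl
    · intro h
      have hab : a ≠ b := h
      exact hcl _ (e1 a).2 _ (e1 b).2 (fun h' => hab (e1.injective (Subtype.ext h')))
  · constructor
    · intro _; exact trivial
    · intro _; exact (hin _ (e2 b).2 _ (e1 a).2).symm
  · constructor
    · intro _; exact trivial
    · intro _; exact hin _ (e2 a).2 _ (e1 b).2
  · constructor
    · intro h; exact (hout _ (e2 a).2 _ (e2 b).2 h).elim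
    · intro h; exact (h : False).elim

/-- **Stability form of the theorem on consecutive cycles**, with the exact defect. -/
theorem result : ∀ k : ℕ, 2 ≤ k → ∀ m : ℕ,
    (10 ^ 60 * k ^ 60 * 2 ^ (4 * k)) ^ 2 + k ^ 2 + k ≤ m →
    ∀ (V : Type) (_ : Fintype V) (G : SimpleGraph V),
      G.edgeSet.ncard = m → (∀ v, ∃ w, G.Adj v w) →
      (((k : ℝ) - 1 + √(4 * m - k ^ 2 + 1)) / 2 ≤ specRad G →
        (∀ t : ℕ, 3 ≤ t → t ≤ 2 * k + 2 → (SimpleGraph.cycleGraph t).IsContained G) ∨
          ∃ s : ℕ, Nonempty (G ≃g splitGraph k s)) ∧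
      (∀ z : ℕ, 4 * z ≤ k ^ 2 →
        (m : ℝ) - k * (k - 1) / 2 - z / k ≤ specRad G ^ 2 - (k - 1) * specRad G →
        (∀ t : ℕ, 3 ≤ t → t ≤ 2 * k + 2 → (SimpleGraph.cycleGraph t).IsContained G) ∨
          ∃ L : Finset V, L.card = k ∧ (∀ a ∈ L, ∀ b ∈ L, a ≠ b → G.Adj a b) ∧
            defect G k L ≤ z) ∧
      (∀ L : Finset V, L.card = k → (∀ a ∈ L, ∀ b ∈ L, a ≠ b → G.Adj a b) →
        (m : ℝ) - k * (k - 1) / 2 - defect G k L / k ≤
          specRad G ^ 2 - (k - 1) * specRad G) ∧
      (∀ l n : ℕ, 1 ≤ l → l ≤ k - 1 → m + k * (k + 1) / 2 ≡ l [MOD k] →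
        (n : ℚ) = ((m : ℚ) - l) / k + (k + 3) / 2 →
        (∀ t : ℕ, 3 ≤ t → t ≤ 2 * k + 2 → (SimpleGraph.cycleGraph t).IsContained G) ∨
          Nonempty (G ≃g S1 n k l) ∨
          (specRad G < specRad (S1 n k l) ∧
            specRad G ^ 2 - (k - 1) * specRad G < (m : ℝ) - k * (k - 1) / 2 - l * (k - l) / k ∧
            (m : ℝ) - k * (k - 1) / 2 - l * (k - l) / k ≤
              specRad (S1 n k l) ^ 2 - (k - 1) * specRad (S1 n k l))) := by
  intro k hk m hm V _ G hG hiso
  have hkR : (2 : ℝ) ≤ k := by exact_mod_cast hk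
  have h2 : ∀ z : ℕ, 4 * z ≤ k ^ 2 →
      (m : ℝ) - k * (k - 1) / 2 - z / k ≤ specRad G ^ 2 - (k - 1) * specRad G →
      (∀ t : ℕ, 3 ≤ t → t ≤ 2 * k + 2 → (SimpleGraph.cycleGraph t).IsContained G) ∨
        ∃ L : Finset V, L.card = k ∧ (∀ a ∈ L, ∀ b ∈ L, a ≠ b → G.Adj a b) ∧
          defect G k L ≤ z := by
    intro z hz hge
    by_cases hfree : (fan (2 * k + 1)).IsContained G
    · left
      intro t ht ht'
      exact (cycle_fan t (2 * k + 1) ht (by omega)).trans hfree
    · right
      exact ((Pool.Agent.Results.MP_0daf67_co.DefectStability.result k hk m hm V _ G hG hiso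
        hfree).1 z hz).1 hge
  refine ⟨?_, h2, ?_, ?_⟩
  · intro h
    have hmk : k ^ 2 ≤ m := by
      have := Nat.zero_le ((10 ^ 60 * k ^ 60 * 2 ^ (4 * k)) ^ 2)
      omega
    have hmkR : (k : ℝ) ^ 2 ≤ m := by exact_mod_cast hmk
    have hs0 : 0 ≤ √(4 * m - k ^ 2 + 1 : ℝ) := Real.sqrt_nonneg _
    have hs2 : √(4 * m - k ^ 2 + 1 : ℝ) ^ 2 = 4 * m - k ^ 2 + 1 := by
      apply Real.sq_sqrt
      have : (0 : ℝ) ≤ m := Nat.cast_nonneg _
      linarith
    have h3 : √(4 * m - k ^ 2 + 1 : ℝ) ≤ 2 * specRad G - (k - 1) := by linarith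
    have h4 := pow_le_pow_left₀ hs0 h3 2
    rw [hs2] at h4
    have h5 : (m : ℝ) - k * (k - 1) / 2 - ((0 : ℕ) : ℝ) / k ≤
        specRad G ^ 2 - (k - 1) * specRad G := by
      rw [Nat.cast_zero, zero_div]
      linarith [h4]
    rcases h2 0 (by omega) h5 with h6 | ⟨L, hL, hcl, hd⟩
    · exact Or.inl h6
    · right
      exact iso_of_zero G k hk hiso L hL hcl (by simpa using hd)
  · intro L hL hcl
    classical
    have hG' : G.edgeFinset.card = m := by
      rw [← hG, Set.ncard_eq_toFinset_card']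
      rfl
    have := clique_lower k m hk L hL hcl hG'
    rw [defect_eq]
    exact this
  · intro l n hl1 hl hmod hn
    by_cases hfree : (fan (2 * k + 1)).IsContained G
    · left
      intro t ht ht'
      exact (cycle_fan t (2 * k + 1) ht (by omega)).trans hfree
    · right
      obtain ⟨h3, h4, h5, h6⟩ :=
        (Pool.Agent.Results.MP_0daf67_co.DefectStability.result k hk m hm V _ G hG hiso
          hfree).2 l n hl1 hl hmod hn
      by_cases he : Nonempty (G ≃g S1 n k l)
      · exact Or.inl he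
      · right
        exact ⟨lt_of_le_of_ne h3 (fun h => he (h4.1 h)), h6 (not_nonempty_iff.1 he), h5⟩

end Pool.Agent.Results.MP_d10d5e_co.CycleDefectStability
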